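import Pool.Agent.K3h33.CL.Real5

set_option autoImplicit false

/-!
# Clusters of almost primes between `x` and `x + x ^ θ`, in narrow progressions and with companions
-/

namespace Pool.Agent.Results.MP_b8a134_nt.AlmostPrimeClusters

open Filter Polynomial

/-- `n` is a product of at most `r` primes, counted with multiplicity, all of them at least `w`. -/
def AlmostPrime (r : ℕ) (w : ℝ) (n : ℕ) : Prop :=
  0 < n ∧ n.primeFactorsList.length ≤ r ∧ ∀ p : ℕ, p.Prime → p ∣ n → w ≤ p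

/-- **A theorem of Maynard-Tao type for almost primes in the intervals `(x, x + x ^ θ)`, for ALL large `x`.** Let
`25 / (24 r - 3) < τ < θ ≤ 1` (for instance `r = 3`, `τ = 0.3624`, `θ = 0.363`, or `r = 3`, `τ = 0.49`, `θ = 1 / 2`, or
`r = 2`, `τ = 0.5556`), and let `g ≠ 0` be a polynomial with integer coefficients such that no prime
divides all the products `n g(n)`, `n ∈ ℤ` (for instance `g = 1` or `g = n + 2`). For every `m` there is `K` such that for
every finite set `S` of at least `K` natural numbers there are `s` and `δ > 0` such that for every `l` there is `B` such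
that for all sufficiently large real `x` there are a subset `H` of `S` with `m` elements and an arithmetic progression
`n, n + d, ..., n + (l - 1) d` with `1 ≤ d ≤ (log x) ^ B` such that all the numbers `n + j d + h` (`j < l`, `h ∈ H`) lie
in `(x, x + x ^ θ)`, are products of at most `r` primes, all of them at least `x ^ (τ / 4)`, and the values of `g` at
these numbers are products of at most `s` primes, all of them at least `x ^ δ`. -/
theorem result (r : ℕ) (τ θ : ℝ) (hτ : 0 < τ) (hτθ : τ < θ) (hθ : θ ≤ 1)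
    (hr : 25 < (24 * (r : ℝ) - 3) * τ) (g : ℤ[X]) (hg : g ≠ 0)
    (hadm : ∀ p : ℕ, p.Prime → ∃ n : ℤ, ¬ (p : ℤ) ∣ n * g.eval n) (m : ℕ) :
    ∃ K : ℕ, ∀ S : Finset ℕ, K ≤ S.card → ∃ (s : ℕ) (δ : ℝ), 0 < δ ∧ ∀ l : ℕ,
      ∃ B : ℕ, ∀ᶠ x : ℝ in atTop, ∃ H ⊆ S, H.card = m ∧ ∃ n d : ℕ, 1 ≤ d ∧
        (d : ℝ) ≤ Real.log x ^ B ∧ ∀ j < l, ∀ h ∈ H,
          x < ((n + j * d + h : ℕ) : ℝ) ∧ ((n + j * d + h : ℕ) : ℝ) < x + x ^ θ ∧
          AlmostPrime r (x ^ (τ / 4)) (n + j * d + h) ∧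
          AlmostPrime s (x ^ δ) (g.eval ((n + j * d + h : ℕ) : ℤ)).natAbs := by
  obtain ⟨K, hK⟩ := Pool.Agent.K3h33.CL.real_sys5 r τ θ hτ hτθ hθ hr g hg hadm m
  refine ⟨K, fun S hS => ?_⟩
  obtain ⟨s, δ, hδ, hl⟩ := hK S hS
  refine ⟨s, δ, hδ, fun l => ?_⟩
  obtain ⟨B, hB⟩ := hl l
  refine ⟨B, ?_⟩
  filter_upwards [hB, eventually_ge_atTop (0 : ℝ)] with x hx hx0
  obtain ⟨H, hH, hHc, n, d, h1, h2, h3⟩ := hx
  refine ⟨H, hH, hHc, n, d, h1, h2, fun j hj h hh => ?_⟩
  obtain ⟨g1, g2, g3, g4, g5, g6, g7⟩ := h3 j hj h hh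
  refine ⟨g1, g2, ⟨?_, g3, g4⟩, Int.natAbs_pos.2 g5, g6, fun p hp hpd => g7 p hp (Int.natCast_dvd.2 hpd)⟩
  have : (0 : ℝ) < ((n + j * d + h : ℕ) : ℝ) := lt_of_le_of_lt hx0 g1
  exact_mod_cast this

end Pool.Agent.Results.MP_b8a134_nt.AlmostPrimeClusters
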