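import Pool.Agent.K3h21.LW.Lin

set_option autoImplicit false

/-!
# Clusters of almost primes in the windows `(x, x + H]` for all `H ≤ √X`

For all `H ≤ √X` all `x ≤ X` with at most `X (log X) ^ C / H` exceptions have many clusters of `m` products of at most three
primes in `(x, x + H]`, and all `x ≤ X` with at most `X ^ η / H` exceptions (`η > 10 / 9`) have many clusters of `m` products of
at most two primes. The level of distribution `(X H) ^ (1 / 2)` comes from the large sieve for windows.
-/

namespace Pool.Agent.Results.MP_b8a134_nt.ClustersInWindows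

/-- `n > 0` has at most `r` prime factors, counted with multiplicity, all of them at least `w`. -/
def AlmostPrime (r : ℕ) (w : ℝ) (n : ℕ) : Prop :=
  0 < n ∧ n.primeFactorsList.length ≤ r ∧ ∀ p : ℕ, p.Prime → p ∣ n → w ≤ p

open Classical in
/-- The integers `n` with `x < n ≤ x + H` such that for at least `m` of the `h ∈ S` the number `n + h` is at most `x + H` and
satisfies `AlmostPrime r w (n + h)`. -/
noncomputable def clusters (S : Finset ℕ) (m r : ℕ) (w : ℝ) (x H : ℕ) : Finset ℕ :=
  (Finset.Ioc x (x + H)).filter (fun n => m ≤ (S.filter (fun h => n + h ≤ x + H ∧ AlmostPrime r w (n + h))).card)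

open Classical in
/-- The `x ≤ X` for which there are fewer than `H / (log X) ^ A` clusters in `(x, x + H]`. -/
noncomputable def poor (S : Finset ℕ) (m r : ℕ) (w : ℝ) (A X H : ℕ) : Finset ℕ :=
  (Finset.range (X + 1)).filter (fun x : ℕ => ((clusters S m r w x H).card : ℝ) < H / Real.log X ^ A)

open Classical in
theorem key (S : Finset ℕ) (m r : ℕ) (w : ℝ) (A X H : ℕ) : (poor S m r w A X H).card ≤
    ((Finset.range (X + 1)).filter (fun x : ℕ => ((Pool.Agent.K3h21.LW.cl (fun n => n) S m r w x H).card : ℝ) <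
        H / Real.log X ^ A)).card := by
  apply Finset.card_le_card
  intro x hx
  unfold poor at hx
  rw [Finset.mem_filter] at hx ⊢
  refine ⟨hx.1, lt_of_le_of_lt ?_ hx.2⟩
  have : (Pool.Agent.K3h21.LW.cl (fun n => n) S m r w x H).card ≤ (clusters S m r w x H).card := by
    apply Finset.card_le_card
    intro n hn
    unfold Pool.Agent.K3h21.LW.cl at hn
    unfold clusters
    rw [Finset.mem_filter] at hn ⊢
    obtain ⟨g1, T, g2, g3, g4⟩ := hn
    refine ⟨g1, ?_⟩
    rw [← g3]
    apply Finset.card_le_card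
    intro h hh
    rw [Finset.mem_filter]
    obtain ⟨g5, g6, g7⟩ := g4 h hh
    rw [Finset.mem_Ioc] at g1
    rw [Int.natAbs_natCast] at g6 g7
    exact ⟨g2 hh, g5, by omega, g6, g7⟩
  exact_mod_cast this

/-- **Clusters of almost primes in windows of all lengths up to `√X`.** For every `m`: (1) there is `K` such that for every
finite set `S` of at least `K` natural numbers there are `A`, `C`, `X₀` such that for all `X ≥ X₀` and all `1 ≤ H ≤ √X` all
integers `x ≤ X` with at most `X (log X) ^ C / H` exceptions have at least `H / (log X) ^ A` clusters in `(x, x + H]` of `m`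
products of at most three primes, all of them at least `X ^ (3 / 25)`; (2) for every `η > 10 / 9` there is `K` such that for
every finite set `S` of at least `K` natural numbers there are `A`, `X₀` such that for all `X ≥ X₀` and all `1 ≤ H ≤ √X` all
integers `x ≤ X` with at most `X ^ η / H` exceptions have at least `H / (log X) ^ A` clusters in `(x, x + H]` of `m` products
of at most two primes, all of them at least `X ^ (5 / 36)`. -/
theorem result (m : ℕ) :
    (∃ K : ℕ, ∀ S : Finset ℕ, K ≤ S.card → ∃ A C X₀ : ℕ, ∀ X : ℕ, X₀ ≤ X → ∀ H : ℕ, 1 ≤ H → H ^ 2 ≤ X →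
      ((poor S m 3 ((X : ℝ) ^ ((3 : ℝ) / 25)) A X H).card : ℝ) ≤ X * Real.log X ^ C / H) ∧
    (∀ η : ℝ, 10 / 9 < η → ∃ K : ℕ, ∀ S : Finset ℕ, K ≤ S.card → ∃ A X₀ : ℕ, ∀ X : ℕ, X₀ ≤ X →
      ∀ H : ℕ, 1 ≤ H → H ^ 2 ≤ X →
      ((poor S m 2 ((X : ℝ) ^ ((5 : ℝ) / 36)) A X H).card : ℝ) ≤ (X : ℝ) ^ η / H) := by
  constructor
  · obtain ⟨K, h1⟩ := Pool.Agent.K3h21.LW.three m
    refine ⟨K, fun S hS => ?_⟩
    obtain ⟨A, C, h2⟩ := h1 S hS
    obtain ⟨X₀, h3⟩ := Filter.eventually_atTop.1 h2
    refine ⟨A, C, X₀, fun X hX H hH hHX => ?_⟩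
    refine le_trans ?_ (h3 X hX H hH hHX)
    exact_mod_cast key S m 3 _ A X H
  · intro η hη
    obtain ⟨K, h1⟩ := Pool.Agent.K3h21.LW.two m η hη
    refine ⟨K, fun S hS => ?_⟩
    obtain ⟨A, h2⟩ := h1 S hS
    obtain ⟨X₀, h3⟩ := Filter.eventually_atTop.1 h2
    refine ⟨A, X₀, fun X hX H hH hHX => ?_⟩
    refine le_trans ?_ (h3 X hX H hH hHX)
    exact_mod_cast key S m 2 _ A X H

end Pool.Agent.Results.MP_b8a134_nt.ClustersInWindows
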