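import Pool.Agent.K3h31.WL.SepFin
import Pool.Agent.K3h31.WL.ApFin

/-!
# Almost primes in the intervals `(x, x + H)`: very few exceptions, globally and inside every interval

Schinzel's question asks for primes in all the intervals `(x, x + sqrt x)`. Here primes are replaced by integers with at
most `r` prime factors, all of them large; the intervals are much shorter, and the number of exceptions is estimated,
for `x` in `[1, X]`, and also for `x` in ANY interval of length at least `X ^ θ` in `[1, X]` (`θ = 0.422` for `r = 5`) and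
in any arithmetic progression with at least `X ^ θ` terms.

**Theorem.** Let `Λ_r = 1 + log ((3 ^ r + 1) / 4) / log 3`, so that `2 / Λ_2 < 1.091`, `2 / Λ_3 < 0.722`,
`2 / Λ_4 < 0.534` and `2 / Λ_5 < 0.422`.

(1) For every `η > 2 / Λ_2` there are `δ, C > 0` such that for all real `X ≥ 2` and `H₀ ≥ 1`: let `S` be a finite set of
real numbers in `[1, X]`, any two of them at distance at least `H₀`, such that for every `x` in `S` there is `H` with
`H₀ ≤ H ≤ sqrt X` for which `(x, x + H)` contains fewer than `δ H / log X` integers with at most two prime factors, all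
of them at least `X ^ (1/8)`. Then `S` has at most `C X ^ η / H₀ ^ 2` elements.

(2) There are `δ, C > 0` such that the same holds with at most three prime factors, all of them at least `X ^ (3/25)`,
and the bound `C X (log X) ^ 7 / H₀ ^ 2`.

(3) Let `r ≥ 3`, `2 / Λ_r < θ ≤ 1` and `c = 1 / (4 Λ_r)`. There are `δ, C > 0` such that for all `Y ≥ 2`, for every
arithmetic progression `a + m k`, `1 ≤ k ≤ Z`, with `m ≥ 1`, `gcd (a, m) = 1`, `a + m Z ≤ Y` and `Z ≥ Y ^ θ`, and for all
`H₀ ≥ 1`: let `S` be a set of positions `x ≤ Z`, any two at distance at least `H₀`, such that for every `x` in `S` there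
is `H` with `H₀ ≤ H ≤ Y ^ c` for which fewer than `δ H / log Y` of the `H` numbers `a + m (x + j)`, `1 ≤ j ≤ H`, have at
most `r` prime factors, all at least `Y ^ c`. Then `S` has at most `C Z (log Y) ^ 7 / H₀ ^ 2` elements.

With `m = 1` and `r = 5`: inside EVERY interval `(x, x + sqrt x)`, and every interval of length `x ^ 0.422`, almost all
the intervals of length `(log x) ^ 8` contain `P₅`.

Proof. The weighted linear sieve with the weights of Richert of level `D` is applied to the integers of the windows. The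
mean square over the positions of the remainder term is estimated by the large sieve inequality, for one residue class
for each prime: its Fourier expansion has the frequencies `a / q`, `q ≤ D`, and the sum over the window gains a factor
`H`, since the sum of the squares of the window kernel over the `a` modulo `q` is at most `q H`; this gives
`(Z + D ^ 2) H (log Y) ^ 5` for the sum over the positions of the squares of the remainder terms. So all but
`(Z + D ^ 2) (log Y) ^ 7 / H` of the positions are good. A window of length `H` which is bad contains `H / 2` bad windows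
of half the length; this gains a further factor `H` for separated positions. The squares of medium primes are dealt with
by a second moment and (large squares) by counting directly.
-/

set_option autoImplicit false

namespace Pool.Agent.Results.MP_b8a134_nt.FewExceptionalWindows

open Finset

/-- a positive integer with at most `r` prime factors (counted with multiplicity), all at least `w` -/
def AlmostPrime (r : ℕ) (w : ℝ) (m : ℕ) : Prop :=
  0 < m ∧ m.primeFactorsList.length ≤ r ∧ ∀ q : ℕ, q.Prime → q ∣ m → w ≤ q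

/-- the almost primes `m` with `x < m < x + H` -/
def between (r : ℕ) (w x H : ℝ) : Set ℕ :=
  {m : ℕ | x < m ∧ (m : ℝ) < x + H ∧ AlmostPrime r w m}

/-- `S` consists of points of `[1, X]` with distances at least `H₀`, and for every `x` in `S` there is `H` with
`H₀ ≤ H ≤ sqrt X` such that `(x, x + H)` contains fewer than `δ H / log X` integers with at most `r` prime factors, all
at least `X ^ c` -/
def Exceptional (r : ℕ) (c δ X H₀ : ℝ) (S : Finset ℝ) : Prop :=
  (∀ x ∈ S, 1 ≤ x ∧ x ≤ X) ∧ (∀ x ∈ S, ∀ y ∈ S, x < y → x + H₀ ≤ y) ∧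
  ∀ x ∈ S, ∃ H : ℝ, H₀ ≤ H ∧ H ≤ Real.sqrt X ∧
    ((between r (X ^ c) x H).ncard : ℝ) < δ * H / Real.log X

open Classical in
/-- the number of the almost primes among `a + m (x + 1), a + m (x + 2), ..., a + m (x + H)` -/
noncomputable def count (r : ℕ) (w : ℝ) (a m x H : ℕ) : ℕ :=
  ((Icc 1 H).filter (fun j => AlmostPrime r w (a + m * (x + j)))).card

/-- `S` is a set of positions `1 ≤ x ≤ Z`, any two at distance at least `H₀`, and for every `x` in `S` there is `H` with
`H₀ ≤ H ≤ Y ^ c` such that fewer than `δ H / log Y` of the numbers `a + m (x + j)`, `1 ≤ j ≤ H`, have at most `r` prime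
factors, all at least `Y ^ c` -/
def ExceptionalIn (r : ℕ) (c δ : ℝ) (Y a m Z H₀ : ℕ) (S : Finset ℕ) : Prop :=
  (∀ x ∈ S, 1 ≤ x ∧ x ≤ Z) ∧ (∀ x ∈ S, ∀ y ∈ S, x < y → x + H₀ ≤ y) ∧
  ∀ x ∈ S, ∃ H : ℕ, H₀ ≤ H ∧ (H : ℝ) ≤ (Y : ℝ) ^ c ∧
    (count r ((Y : ℝ) ^ c) a m x H : ℝ) < δ * H / Real.log Y

/-- the constants of the weighted sieve -/
noncomputable def Lam (r : ℕ) : ℝ := 1 + Real.log ((3 ^ r + 1) / 4) / Real.log 3

/-- **Almost primes in short intervals with very few exceptions, globally, and inside every interval and every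
progression.** -/
theorem result :
    (∀ η : ℝ, 2 / Lam 2 < η → ∃ δ C : ℝ, 0 < δ ∧ 0 < C ∧ ∀ X : ℝ, 2 ≤ X → ∀ H₀ : ℝ, 1 ≤ H₀ →
      ∀ S : Finset ℝ, Exceptional 2 (1 / 8) δ X H₀ S → (S.card : ℝ) ≤ C * X ^ η / H₀ ^ 2) ∧
    (∃ δ C : ℝ, 0 < δ ∧ 0 < C ∧ ∀ X : ℝ, 2 ≤ X → ∀ H₀ : ℝ, 1 ≤ H₀ →
      ∀ S : Finset ℝ, Exceptional 3 (3 / 25) δ X H₀ S →
        (S.card : ℝ) ≤ C * X * Real.log X ^ 7 / H₀ ^ 2) ∧
    (∀ r : ℕ, 3 ≤ r → ∀ θ : ℝ, 2 / Lam r < θ → θ ≤ 1 → ∃ δ C : ℝ, 0 < δ ∧ 0 < C ∧ ∀ Y : ℕ, 2 ≤ Y →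
      ∀ a m Z : ℕ, 1 ≤ m → Nat.Coprime a m → a + m * Z ≤ Y → (Y : ℝ) ^ θ ≤ Z → ∀ H₀ : ℕ, 1 ≤ H₀ →
      ∀ S : Finset ℕ, ExceptionalIn r (1 / (4 * Lam r)) δ Y a m Z H₀ S →
        (S.card : ℝ) ≤ C * Z * Real.log Y ^ 7 / H₀ ^ 2) ∧
    2 / Lam 2 < 1091 / 1000 ∧ 2 / Lam 3 < 722 / 1000 ∧ 2 / Lam 4 < 534 / 1000 ∧ 2 / Lam 5 < 422 / 1000 := by
  have key : ∀ r, Lam r = Pool.Agent.K3h19.RV.Lam r := fun _ => rfl
  refine ⟨fun η hη => ?_, Pool.Agent.K3h31.WL.three_sep, fun r hr θ hθ hθ1 => ?_, ?_,
    Pool.Agent.K3h31.WL.two_div_three, Pool.Agent.K3h31.WL.two_div_four, Pool.Agent.K3h31.WL.two_div_five⟩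
  · rw [key] at hη
    exact Pool.Agent.K3h31.WL.two_sep η hη
  · rw [key] at hθ
    obtain ⟨δ, C, hδ, hC, H⟩ := Pool.Agent.K3h31.WL.ap_fin r (by omega) θ hθ hθ1
    refine ⟨δ, C, hδ, hC, fun Y hY a m Z hm hco hs hYZ H₀ hH₀ S hS => ?_⟩
    obtain ⟨h1, h2, h3⟩ := hS
    refine H Y hY a m Z hm hco hs hYZ H₀ hH₀ S ⟨fun x hx => mem_Icc.2 (h1 x hx), h2, fun x hx => ?_⟩
    obtain ⟨L, h4, h5, h6⟩ := h3 x hx
    have h7 : (Pool.Agent.K3h31.WL.goodA r ((Y : ℝ) ^ (1 / (4 * Lam r))) a m L x).card =
        count r ((Y : ℝ) ^ (1 / (4 * Lam r))) a m x L := by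
      unfold Pool.Agent.K3h31.WL.goodA count
      apply congrArg Finset.card
      ext j
      simp only [mem_filter, mem_Icc]
      constructor
      · rintro ⟨h8, h9, h10⟩
        exact ⟨h8, Nat.add_pos_right a (Nat.mul_pos (by omega) (by omega)), h9, h10⟩
      · rintro ⟨h8, _, h9, h10⟩
        exact ⟨h8, h9, h10⟩
    refine ⟨L, h4, h5, ?_⟩
    rw [← h7] at h6
    exact h6
  · rw [key]
    have h := Pool.Agent.K3h19.RV.lam_two
    have : 2 / Pool.Agent.K3h19.RV.Lam 2 ≤ 2 / (1 + 5 / 6) :=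
      div_le_div_of_nonneg_left (by norm_num) (by norm_num) h
    norm_num at this ⊢
    linarith

end Pool.Agent.Results.MP_b8a134_nt.FewExceptionalWindows
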