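import Mathlib
import Pool.Agent.K3h89.SI.Real

/-!
# Szemerédi's theorem in every short interval

(1) Let `ε, δ, κ > 0`.  For all large `x` and ALL `H` with `x ^ ε ≤ H ≤ x` (in particular for `H = √x`, the interval
`(x, x + √x)` of Schinzel's conjecture) every set of at least `κ H / log x` primes in `(x, x + H)`, and more generally
every such set of integers without prime factors less than `x ^ δ`, contains `k` terms in arithmetic progression with
difference at most `(log x) ^ B`, `B = B(k, ε, δ, κ)`.  So if there is no such progression of primes in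
`(x, x + √x)` then there are `o(√x / log x)` primes.

(2) Let `Λ_r = r + 1 - log (4 / (1 + 3 ^ (-r))) / log 3` and `1 / Λ_r < θ ≤ 1` (`r = 3`: `θ > 0.362`, so that `H = √x` is
allowed; `r = 2`: `θ > 0.546`).  For all large `x` and all `H` with `x ^ θ ≤ H ≤ x` there are at least `c H / log x`
integers with at most `r` prime factors, all of them at least `x ^ (1 / (4 Λ_r))`, in `(x, x + H)`, and every subset of a
positive proportion of them contains such progressions.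

(3) There is a `θ < 1` such that for all large `x` and all `H` with `x ^ θ ≤ H ≤ x` there are at least `c H / log x`
PRIMES in `(x, x + H)`, and every subset of a positive proportion of them contains such progressions.

Tools: Szemerédi's theorem relative to sifted sets (starting library, `Pool.Agent.Y677.RSZ.eng_all`), the weights of
Richert (`K3h31.LP`, `K3h19.RV`, of this team, and `Pool.Agent.Y882`), the elementary proof of Hoheisel's theorem
(starting library, `Pool.Agent.H295R3.D.hoheisel`).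
-/

set_option autoImplicit false

open Finset Filter

namespace Pool.Agent.Results.MP_b8a134_nt.PrimesInProgression

/-- `S` contains `k` terms `a, a + d, ..., a + (k - 1) d` in arithmetic progression with a difference
`1 ≤ d ≤ D` -/
def HasAP (k : ℕ) (D : ℝ) (S : Set ℕ) : Prop :=
  ∃ a d : ℕ, 1 ≤ d ∧ (d : ℝ) ≤ D ∧ ∀ i < k, a + i * d ∈ S

/-- the primes in `(x, x + H)` -/
def primesIn (x H : ℝ) : Set ℕ := {p : ℕ | p.Prime ∧ x < p ∧ (p : ℝ) < x + H}

/-- the integers in `(x, x + H)` with at most `r` prime factors (counted with multiplicity), all of them at least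
`w` -/
def almostPrimesIn (r : ℕ) (w x H : ℝ) : Set ℕ :=
  {n : ℕ | x < n ∧ (n : ℝ) < x + H ∧ n.primeFactorsList.length ≤ r ∧ ∀ q : ℕ, q.Prime → q ∣ n → w ≤ q}

/-- the constant of Richert, `r + 1 - log (4 / (1 + 3 ^ (-r))) / log 3` -/
noncomputable def Lam (r : ℕ) : ℝ := r + 1 - Real.log (4 / (1 + (3 : ℝ) ^ (-(r : ℝ)))) / Real.log 3

/-- `G` has at least `c H / log x` elements, and every subset of `G` with at least `κ |G|` elements contains `k`
terms in arithmetic progression with difference at most `(log x) ^ B` -/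
def Szemeredi (k : ℕ) (κ c : ℝ) (B : ℕ) (x H : ℝ) (G : Set ℕ) : Prop :=
  c * (H / Real.log x) ≤ (G.ncard : ℝ) ∧
    ∀ T ⊆ G, κ * (G.ncard : ℝ) ≤ (T.ncard : ℝ) → HasAP k (Real.log x ^ B) T

theorem Lam_eq (r : ℕ) : Lam r = Pool.Agent.K3h19.RV.Lam r := by
  unfold Lam Pool.Agent.K3h19.RV.Lam
  have h3 : (0 : ℝ) < 3 ^ r := by positivity
  have hL : (0 : ℝ) < Real.log 3 := Real.log_pos (by norm_num)
  have e1 : (3 : ℝ) ^ (-(r : ℝ)) = (3 ^ r)⁻¹ := by
    rw [Real.rpow_neg (by norm_num), Real.rpow_natCast]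
  have e2 : (4 : ℝ) / (1 + (3 ^ r)⁻¹) = ((3 ^ r + 1) / 4)⁻¹ * 3 ^ r := by
    field_simp
  rw [e1, e2, Real.log_mul (by positivity) (by positivity), Real.log_inv, Real.log_pow]
  field_simp
  ring

theorem dense_set (k : ℕ) (ε δ κ : ℝ) (hε : 0 < ε) (hδ : 0 < δ) (hκ : 0 < κ) :
    ∃ (B : ℕ) (x₀ : ℝ), ∀ x H : ℝ, x₀ ≤ x → x ^ ε ≤ H → H ≤ x → ∀ T : Set ℕ,
      (∀ n ∈ T, x < n ∧ (n : ℝ) < x + H ∧ ∀ q : ℕ, q.Prime → q ∣ n → x ^ δ ≤ q) →
      κ * (H / Real.log x) ≤ (T.ncard : ℝ) → HasAP k (Real.log x ^ B) T := by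
  obtain ⟨B, x₀, h⟩ := Pool.Agent.K3h89.SI.dense k ε δ κ hε hδ hκ
  refine ⟨B, x₀, fun x H hx h1 h2 T hT hTc => ?_⟩
  have hfin : T.Finite := by
    apply (Set.finite_Iic ⌈x + H⌉₊).subset
    intro n hn
    have h3 : (n : ℝ) ≤ ⌈x + H⌉₊ := (hT n hn).2.1.le.trans (Nat.le_ceil _)
    exact_mod_cast h3
  obtain ⟨a, d, e1, e2, e3⟩ := h x H hx h1 h2 hfin.toFinset (fun n hn => hT n (hfin.mem_toFinset.1 hn)) (by
    rwa [← Set.ncard_eq_toFinset_card T hfin])
  exact ⟨a, d, e1, e2, fun i hi => hfin.mem_toFinset.1 (e3 i hi)⟩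

/-- **Szemerédi's theorem in every short interval.**  See the explanation at the beginning of the file. -/
theorem result :
    (∀ (k : ℕ) (ε δ κ : ℝ), 0 < ε → 0 < δ → 0 < κ →
      ∃ (B : ℕ) (x₀ : ℝ), ∀ x H : ℝ, x₀ ≤ x → x ^ ε ≤ H → H ≤ x → ∀ T : Set ℕ,
        (∀ n ∈ T, x < n ∧ (n : ℝ) < x + H ∧ ∀ q : ℕ, q.Prime → q ∣ n → x ^ δ ≤ q) →
        κ * (H / Real.log x) ≤ (T.ncard : ℝ) → HasAP k (Real.log x ^ B) T) ∧
    (∀ (r : ℕ) (θ : ℝ), 1 ≤ r → 1 / Lam r < θ → θ ≤ 1 → ∃ c : ℝ, 0 < c ∧ ∀ (k : ℕ) (κ : ℝ), 0 < κ →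
      ∃ (B : ℕ) (x₀ : ℝ), ∀ x H : ℝ, x₀ ≤ x → x ^ θ ≤ H → H ≤ x →
        Szemeredi k κ c B x H (almostPrimesIn r (x ^ (1 / (4 * Lam r))) x H)) ∧
    (1 / Lam 2 < 0.546 ∧ 1 / Lam 3 < 0.362) ∧
    ∃ θ c : ℝ, θ < 1 ∧ 0 < c ∧ ∀ (k : ℕ) (κ : ℝ), 0 < κ →
      ∃ (B : ℕ) (x₀ : ℝ), ∀ x H : ℝ, x₀ ≤ x → x ^ θ ≤ H → H ≤ x →
        Szemeredi k κ c B x H (primesIn x H) := by
  have hLam0 : ∀ r : ℕ, 1 ≤ r → 0 < Lam r := by
    intro r hr
    rw [Lam_eq]
    unfold Pool.Agent.K3h19.RV.Lam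
    have h1 : (3 : ℝ) ≤ 3 ^ r := by
      calc (3 : ℝ) = 3 ^ 1 := (pow_one _).symm
        _ ≤ 3 ^ r := pow_le_pow_right₀ (by norm_num) hr
    have h2 : 0 ≤ Real.log (((3 : ℝ) ^ r + 1) / 4) := Real.log_nonneg (by linarith)
    have h3 : 0 < Real.log 3 := Real.log_pos (by norm_num)
    positivity
  refine ⟨fun k ε δ κ hε hδ hκ => dense_set k ε δ κ hε hδ hκ, ?_, ⟨?_, ?_⟩, ?_⟩
  · intro r θ hr hθ hθ1
    have hL := hLam0 r hr
    have hL' : 0 < Pool.Agent.K3h19.RV.Lam r := by rwa [← Lam_eq]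
    obtain ⟨c, hc, x₁, hx₁⟩ := Pool.Agent.K3h89.SI.count_ap r hr θ hL' (by rwa [← Lam_eq]) hθ1
    refine ⟨c, hc, fun k κ hκ => ?_⟩
    have hθ0 : 0 < θ := lt_trans (by positivity) hθ
    obtain ⟨B, x₀, h⟩ := dense_set k θ (1 / (4 * Lam r)) (κ * c) hθ0 (by positivity) (by positivity)
    refine ⟨B, max x₀ x₁, fun x H hx h1 h2 => ?_⟩
    have hcount := hx₁ x H ((le_max_right _ _).trans hx) h1 h2
    rw [← Lam_eq] at hcount
    refine ⟨hcount, fun T hT hTc => ?_⟩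
    apply h x H ((le_max_left _ _).trans hx) h1 h2 T (fun n hn => ⟨(hT hn).1, (hT hn).2.1, (hT hn).2.2.2⟩)
    refine le_trans ?_ hTc
    rw [mul_assoc]
    exact mul_le_mul_of_nonneg_left hcount hκ.le
  · rw [Lam_eq]
    have h := Pool.Agent.K3h19.RV.lam_two
    have : 1 / Pool.Agent.K3h19.RV.Lam 2 ≤ 1 / (1 + 5 / 6) :=
      div_le_div_of_nonneg_left (by norm_num) (by norm_num) h
    norm_num at this ⊢
    linarith
  · rw [Lam_eq]
    have h := Pool.Agent.K3h19.RV.lam_three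
    have : 1 / Pool.Agent.K3h19.RV.Lam 3 ≤ 1 / (1 + 131 / 74) :=
      div_le_div_of_nonneg_left (by norm_num) (by norm_num) h
    norm_num at this ⊢
    linarith
  · obtain ⟨θ, c, hθ0, hθ1, hc, x₁, hx₁⟩ := Pool.Agent.K3h89.SI.count_primes
    refine ⟨θ, c, hθ1, hc, fun k κ hκ => ?_⟩
    obtain ⟨B, x₀, h⟩ := dense_set k θ 1 (κ * c) hθ0 one_pos (by positivity)
    refine ⟨B, max x₀ x₁, fun x H hx h1 h2 => ?_⟩
    have hcount := hx₁ x H ((le_max_right _ _).trans hx) h1 h2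
    refine ⟨hcount, fun T hT hTc => ?_⟩
    apply h x H ((le_max_left _ _).trans hx) h1 h2 T (fun n hn => ⟨(hT hn).2.1, (hT hn).2.2, fun q hq hqd => ?_⟩)
    · refine le_trans ?_ hTc
      rw [mul_assoc]
      exact mul_le_mul_of_nonneg_left hcount hκ.le
    · have e := (Nat.prime_dvd_prime_iff_eq hq (hT hn).1).1 hqd
      rw [e, Real.rpow_one]
      exact (hT hn).2.1.le

end Pool.Agent.Results.MP_b8a134_nt.PrimesInProgression
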